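import Pool.Agent.Helper13.NF.Defs

/-! # Project NF, module M3: splitting at a tight divisor -/

set_option autoImplicit false

open Finset

namespace Pool.Agent.Helper13.NF

/-- Shifting the second coordinate inside every copy. -/
def splShift {A K : Type} {w : ℕ} [NeZero w] (e : A → K × Fin w) (s : K → Fin w) (a : A) :
    K × Fin w := ((e a).1, (e a).2 + s (e a).1)

theorem splShift_injective {A K : Type} {w : ℕ} [NeZero w] {e : A → K × Fin w}
    (he : Function.Injective e) (s : K → Fin w) : Function.Injective (splShift e s) := by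
  intro a b hab
  have h0 := congrArg Prod.fst hab
  have h0' := congrArg Prod.snd hab
  have h1 : (e a).1 = (e b).1 := h0
  have h2 : (e a).2 + s (e a).1 = (e b).2 + s (e b).1 := h0'
  rw [h1] at h2
  exact he (Prod.ext h1 (add_right_cancel h2))

theorem splShift_modEq {A K : Type} {w t : ℕ} [NeZero w] (ht : t ∣ w) {e : A → K × Fin w}
    (s : K → Fin w) {a b : A} (h1 : (e a).1 = (e b).1)
    (h2 : ((e a).2 : ℕ) ≡ ((e b).2 : ℕ) [MOD t]) :
    ((splShift e s a).2 : ℕ) ≡ ((splShift e s b).2 : ℕ) [MOD t] := by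
  have h3 : ∀ x y : Fin w, ((x + y : Fin w) : ℕ) ≡ (x : ℕ) + (y : ℕ) [MOD t] := by
    intro x y
    rw [Fin.val_add]
    exact (Nat.mod_modEq _ w).of_dvd ht
  have h4 : ((splShift e s a).2 : ℕ) ≡ ((e a).2 : ℕ) + (s (e a).1 : ℕ) [MOD t] := h3 _ _
  have h5 : ((splShift e s b).2 : ℕ) ≡ ((e b).2 : ℕ) + (s (e b).1 : ℕ) [MOD t] := h3 _ _
  refine h4.trans (Nat.ModEq.trans ?_ h5.symm)
  rw [h1]
  exact h2.add_right _

/-- A point of the coset `c` with a prescribed residue. -/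
theorem spl_exists (D w t : ℕ) (hD : 0 < D) (hw : 0 < w) (ht : t ∣ w * D) (c : Fin D) :
    ∃ x : Fin w, (c : ℕ) + D * (x : ℕ) ≡ (c : ℕ) % Nat.gcd t D [MOD t] := by
  have h1 : (c : ℕ) ≡ (c : ℕ) % Nat.gcd t D [MOD Nat.gcd D t] := by
    rw [Nat.gcd_comm D t]
    exact (Nat.mod_modEq _ _).symm
  obtain ⟨k, hk1, hk2⟩ := Nat.chineseRemainder' h1
  have hpos : 0 < w * D := Nat.mul_pos hw hD
  have h2 : k % (w * D) ≡ k [MOD D] := (Nat.mod_modEq k (w * D)).of_dvd (Dvd.intro_left w rfl)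
  have h3 : k % (w * D) ≡ k [MOD t] := (Nat.mod_modEq k (w * D)).of_dvd ht
  have h4 : k % (w * D) < w * D := Nat.mod_lt _ hpos
  have h5 : k % (w * D) / D < w := (Nat.div_lt_iff_lt_mul hD).2 h4
  refine ⟨⟨k % (w * D) / D, h5⟩, ?_⟩
  have h6 : k % (w * D) % D = (c : ℕ) := by
    have h7 : k % (w * D) % D = (c : ℕ) % D := h2.trans hk1
    rw [h7, Nat.mod_eq_of_lt c.isLt]
  have h8 : (c : ℕ) + D * (k % (w * D) / D) = k % (w * D) := by
    conv_rhs => rw [← Nat.mod_add_div (k % (w * D)) D, h6]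
  change (c : ℕ) + D * (k % (w * D) / D) ≡ (c : ℕ) % Nat.gcd t D [MOD t]
  rw [h8]
  exact h3.trans hk2

/-- The rearrangement of the elements. -/
def splR {C I₁ I₂ : Type} {D : ℕ} (e2 : (I₂ × Bool) ⊕ C → C × Fin D) :
    ((I₁ ⊕ I₂) × Bool) ⊕ C → (I₁ × Bool) ⊕ (C × Fin D)
  | Sum.inl (Sum.inl i, b) => Sum.inl (i, b)
  | Sum.inl (Sum.inr i, b) => Sum.inr (e2 (Sum.inl (i, b)))
  | Sum.inr j => Sum.inr (e2 (Sum.inr j))

theorem splR_injective {C I₁ I₂ : Type} {D : ℕ} {e2 : (I₂ × Bool) ⊕ C → C × Fin D}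
    (he : Function.Injective e2) :
    Function.Injective (splR e2 : ((I₁ ⊕ I₂) × Bool) ⊕ C → (I₁ × Bool) ⊕ (C × Fin D)) := by
  rintro (⟨i | i, b⟩ | j) (⟨i' | i', b'⟩ | j') h
  · have h1 : (i, b) = (i', b') := Sum.inl.inj h
    have h2 : i = i' := congrArg Prod.fst h1
    have h3 : b = b' := congrArg Prod.snd h1
    subst h2; subst h3; rfl
  · exact absurd h (by simp [splR])
  · exact absurd h (by simp [splR])
  · exact absurd h (by simp [splR])
  · have h1 : Sum.inl (i, b) = Sum.inl (i', b') := he (Sum.inr.inj h)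
    have h2 : (i, b) = (i', b') := Sum.inl.inj h1
    have h3 : i = i' := congrArg Prod.fst h2
    have h4 : b = b' := congrArg Prod.snd h2
    subst h3; subst h4; rfl
  · have h1 : Sum.inl (i, b) = Sum.inr j' := he (Sum.inr.inj h)
    exact absurd h1 (by simp)
  · exact absurd h (by simp [splR])
  · have h1 : Sum.inr j = Sum.inl (i', b') := he (Sum.inr.inj h)
    exact absurd h1 (by simp)
  · have h1 : Sum.inr j = Sum.inr j' := he (Sum.inr.inj h)
    have h2 : j = j' := Sum.inr.inj h1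
    subst h2; rfl

/-- The embedding of the cosets. -/
def splE {C : Type} {D w : ℕ} (y : (C × Fin D) × Fin w) : C × Fin (w * D) :=
  (y.1.1, finProdFinEquiv (y.2, y.1.2))

theorem splE_injective {C : Type} {D w : ℕ} :
    Function.Injective (splE : (C × Fin D) × Fin w → C × Fin (w * D)) := by
  rintro ⟨⟨j, c⟩, x⟩ ⟨⟨j', c'⟩, x'⟩ h
  have h1 : j = j' := congrArg Prod.fst h
  have h2 : finProdFinEquiv (x, c) = finProdFinEquiv (x', c') := congrArg Prod.snd h
  have h3 := finProdFinEquiv.injective h2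
  have h4 : x = x' := congrArg Prod.fst h3
  have h5 : c = c' := congrArg Prod.snd h3
  subst h1; subst h4; subst h5; rfl

theorem splE_val {C : Type} {D w : ℕ} (y : (C × Fin D) × Fin w) :
    ((splE y).2 : ℕ) = (y.1.2 : ℕ) + D * (y.2 : ℕ) := rfl

theorem TReal.split {C I₁ I₂ : Type} (D w : ℕ) (hD : 0 < D) (hw : 0 < w) (τ₁ : I₁ → ℕ)
    (τ₂ : I₂ → ℕ) (h1 : ∀ i, τ₁ i ∣ w) (h2 : ∀ i, τ₂ i ∣ w * D)
    (H1 : TReal (C × Fin D) I₁ w τ₁) (H2 : TReal C I₂ D (fun i => Nat.gcd (τ₂ i) D)) :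
    TReal C (I₁ ⊕ I₂) (w * D) (Sum.elim (fun i => D * τ₁ i) τ₂) := by
  classical
  have : NeZero w := ⟨hw.ne'⟩
  obtain ⟨e1, he1, hh1, hp1⟩ := H1
  obtain ⟨e2, he2, hh2, hp2⟩ := H2
  have hT : ∀ jc : C × Fin D, ∃ x : Fin w, ∀ i b, e2 (Sum.inl (i, b)) = jc →
      (jc.2 : ℕ) + D * (x : ℕ) ≡ (jc.2 : ℕ) % Nat.gcd (τ₂ i) D [MOD τ₂ i] := by
    intro jc
    by_cases h : ∃ i b, e2 (Sum.inl (i, b)) = jc
    · obtain ⟨i, b, hib⟩ := h
      obtain ⟨x, hx⟩ := spl_exists D w (τ₂ i) hD hw (h2 i) jc.2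
      refine ⟨x, fun i' b' hib' => ?_⟩
      have h3 : Sum.inl (i, b) = Sum.inl (i', b') := he2 (hib.trans hib'.symm)
      have h4 : i = i' := congrArg Prod.fst (Sum.inl.inj h3)
      subst h4
      exact hx
    · push Not at h
      exact ⟨⟨0, hw⟩, fun i b hib => absurd hib (h i b)⟩
  choose target htarget using hT
  set s : C × Fin D → Fin w := fun jc => target jc - (e1 (Sum.inr jc)).2 with hs
  have hhole : ∀ jc : C × Fin D, splShift e1 s (Sum.inr jc) = (jc, target jc) := by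
    intro jc
    refine Prod.ext (hh1 jc) ?_
    change (e1 (Sum.inr jc)).2 + s (e1 (Sum.inr jc)).1 = target jc
    rw [hh1 jc, hs]
    simp
  refine ⟨fun a => splE (splShift e1 s (splR e2 a)), ?_, ?_, ?_⟩
  · intro a b hab
    exact splR_injective he2 (splShift_injective he1 s (splE_injective hab))
  · intro j
    change (splE (splShift e1 s (Sum.inr (e2 (Sum.inr j))))).1 = j
    rw [hhole]
    exact hh2 j
  · rintro (i | i)
    · obtain ⟨hp, hq⟩ := hp1 i
      refine ⟨?_, ?_⟩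
      · change ((e1 (Sum.inl (i, true))).1).1 = ((e1 (Sum.inl (i, false))).1).1
        rw [hp]
      · have h3 := splShift_modEq (h1 i) s hp hq
        change ((splE (splShift e1 s (Sum.inl (i, true)))).2 : ℕ) ≡
          ((splE (splShift e1 s (Sum.inl (i, false)))).2 : ℕ) [MOD D * τ₁ i]
        rw [splE_val, splE_val]
        have h4 : (splShift e1 s (Sum.inl (i, true))).1 =
          (splShift e1 s (Sum.inl (i, false))).1 := hp
        rw [h4]
        exact Nat.ModEq.add_left _ (h3.mul_left' D)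
    · obtain ⟨hp, hq⟩ := hp2 i
      refine ⟨?_, ?_⟩
      · change (splE (splShift e1 s (Sum.inr (e2 (Sum.inl (i, true)))))).1 =
          (splE (splShift e1 s (Sum.inr (e2 (Sum.inl (i, false)))))).1
        rw [hhole, hhole]
        exact hp
      · change ((splE (splShift e1 s (Sum.inr (e2 (Sum.inl (i, true)))))).2 : ℕ) ≡
          ((splE (splShift e1 s (Sum.inr (e2 (Sum.inl (i, false)))))).2 : ℕ) [MOD τ₂ i]
        rw [hhole, hhole, splE_val, splE_val]
        have h3 := htarget (e2 (Sum.inl (i, true))) i true rfl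
        have h4 := htarget (e2 (Sum.inl (i, false))) i false rfl
        have h5 : ((e2 (Sum.inl (i, true))).2 : ℕ) % Nat.gcd (τ₂ i) D =
          ((e2 (Sum.inl (i, false))).2 : ℕ) % Nat.gcd (τ₂ i) D := hq
        change ((e2 (Sum.inl (i, true))).2 : ℕ) + D * (target (e2 (Sum.inl (i, true))) : ℕ) ≡
          ((e2 (Sum.inl (i, false))).2 : ℕ) + D * (target (e2 (Sum.inl (i, false))) : ℕ)
            [MOD τ₂ i]
        refine h3.trans ?_
        rw [h5]
        exact h4.symm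

end Pool.Agent.Helper13.NF
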